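import Mathlib
import Pool.Agent.Lib.MP_55d555_gt.Core
import Pool.Agent.Lib.MP_55d555_gt.HopfLink

set_option autoImplicit false

/-!
# The alternating genus of links is unbounded

Heegaard splittings, link diagrams on Heegaard surfaces and the alternating genus are defined
below, in the topological category, so that every smooth or piecewise linear Heegaard surface and
every smooth or piecewise linear diagram on it is covered. The links are smooth.
-/

namespace Pool.Agent.Results.MP_55d555_gt.Unbounded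

open Set Topology

/-- The sphere `S³`: the unit sphere of `ℂ²`. -/
abbrev Sphere3 : Type := Metric.sphere (0 : EuclideanSpace ℂ (Fin 2)) 1

/-- `L` is a smooth link in `S³`: the disjoint union of the images of finitely many (at least one)
smooth closed curves of period 1 with nowhere vanishing derivative, each injective up to its
period. -/
def IsSmoothLink (L : Set Sphere3) : Prop :=
  ∃ (n : ℕ) (f : Fin n → ℝ → EuclideanSpace ℂ (Fin 2)), 0 < n ∧
    (∀ i, ContDiff ℝ ((⊤ : ℕ∞) : WithTop ℕ∞) (f i)) ∧
    (∀ i t, deriv (f i) t ≠ 0) ∧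
    (∀ i t, ‖f i t‖ = 1) ∧
    (∀ i t, f i (t + 1) = f i t) ∧
    (∀ i j s t, f i s = f j t → i = j ∧ ∃ m : ℤ, s - t = m) ∧
    L = {x : Sphere3 | ∃ i t, (x : EuclideanSpace ℂ (Fin 2)) = f i t}

/-- The standard handlebody of genus `g` in `ℝ³`: the product of `[0,1]` (the last coordinate)
with the rectangle `[0,2g+1] × [-1,1]` from which the `g` open rectangles
`(2j+1,2j+2) × (-1/2,1/2)`, `j < g`, are removed. For `g = 0` it is a solid box, a ball. -/
def handlebody (g : ℕ) : Set (ℝ × ℝ × ℝ) :=
  {v | v.1 ∈ Icc (0 : ℝ) (2 * g + 1) ∧ v.2.1 ∈ Icc (-1 : ℝ) 1 ∧ v.2.2 ∈ Icc (0 : ℝ) 1 ∧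
    ∀ j : ℕ, j < g → ¬ (v.1 ∈ Ioo (2 * j + 1 : ℝ) (2 * j + 2) ∧ |v.2.1| < 1 / 2)}

/-- `W` is a handlebody of genus `g` with boundary surface `F`. -/
def IsHandlebody (g : ℕ) (F W : Set Sphere3) : Prop :=
  ∃ φ : W ≃ₜ handlebody g,
    ∀ x : W, (x : Sphere3) ∈ F ↔ (φ x : ℝ × ℝ × ℝ) ∈ frontier (handlebody g)

/-- `F` is a Heegaard surface of genus `g` in `S³` with the two handlebodies `V` and `W`:
a connected surface (2-manifold), `S³ = V ∪ W`, `V ∩ W = F`, and `V`, `W` are handlebodies of
genus `g` with boundary `F`. (In particular `F` is compact.) -/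
structure IsHeegaardSurface (g : ℕ) (F V W : Set Sphere3) : Prop where
  connected : IsConnected F
  surface : Nonempty (ChartedSpace (EuclideanSpace ℝ (Fin 2)) F)
  union : V ∪ W = univ
  inter : V ∩ W = F
  left : IsHandlebody g F V
  right : IsHandlebody g F W

/-- `h` is a product neighbourhood of `F`: an open embedding of `F × ℝ` into `S³` sending
`(x, 0)` to `x`, with the positive side in `V` and the negative side in `W`. (A tame closed
product neighbourhood `F × [-1,1]` extends to such an open one.) -/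
structure IsProductNeighbourhood (F V W : Set Sphere3) (h : F × ℝ → Sphere3) : Prop where
  embedding : IsOpenEmbedding h
  zero : ∀ x : F, h (x, 0) = x
  pos : ∀ (x : F) (s : ℝ), 0 < s → h (x, s) ∈ V
  neg : ∀ (x : F) (s : ℝ), s < 0 → h (x, s) ∈ W

section Diagrams

variable {F : Type} [TopologicalSpace F] {n : ℕ}

/-- `τ` is a crossing parameter of the curves `p`: another parameter has the same projection. -/
def IsCrossing (p : Fin n × UnitAddCircle → F) (τ : Fin n × UnitAddCircle) : Prop :=
  ∃ τ', τ' ≠ τ ∧ p τ' = p τ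

/-- `τ` is an over-crossing: it lies above another parameter with the same projection. -/
def IsOver (p : Fin n × UnitAddCircle → F) (t : Fin n × UnitAddCircle → ℝ)
    (τ : Fin n × UnitAddCircle) : Prop :=
  ∃ τ', τ' ≠ τ ∧ p τ' = p τ ∧ t τ' < t τ

/-- `τ` is an under-crossing: it lies below another parameter with the same projection. -/
def IsUnder (p : Fin n × UnitAddCircle → F) (t : Fin n × UnitAddCircle → ℝ)
    (τ : Fin n × UnitAddCircle) : Prop :=
  ∃ τ', τ' ≠ τ ∧ p τ' = p τ ∧ t τ < t τ'

/-- The projections `p` and heights `t` of `n` closed curves in `F × ℝ` (disjoint and simple, by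
`injective`) form a link diagram on the surface `F`: there are finitely many crossing parameters;
near any other parameter the diagram is one locally flat arc (the first axis of a chart
`e : ℝ² → F`); and near a crossing it consists of two strands crossing transversely (the two axes
of a chart `e`). -/
structure IsDiagram (p : Fin n × UnitAddCircle → F) (t : Fin n × UnitAddCircle → ℝ) : Prop where
  proj_continuous : Continuous p
  height_continuous : Continuous t
  injective : ∀ τ τ', p τ = p τ' → t τ = t τ' → τ = τ'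
  finite : {τ | IsCrossing p τ}.Finite
  regular : ∀ (i : Fin n) (a : ℝ), ¬ IsCrossing p (i, (a : UnitAddCircle)) →
    ∃ (e : ℝ × ℝ → F) (α : ℝ → ℝ), IsOpenEmbedding e ∧ Continuous α ∧ α 0 = a ∧
      (∀ u, p (i, (α u : UnitAddCircle)) = e (u, 0)) ∧
      ∀ τ, p τ ∈ range e → ∃ u, τ = (i, (α u : UnitAddCircle))
  transverse : ∀ (i j : Fin n) (a b : ℝ), (i, (a : UnitAddCircle)) ≠ (j, (b : UnitAddCircle)) →
    p (i, (a : UnitAddCircle)) = p (j, (b : UnitAddCircle)) →
    ∃ (e : ℝ × ℝ → F) (α β : ℝ → ℝ), IsOpenEmbedding e ∧ Continuous α ∧ Continuous β ∧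
      α 0 = a ∧ β 0 = b ∧
      (∀ u, p (i, (α u : UnitAddCircle)) = e (u, 0)) ∧
      (∀ v, p (j, (β v : UnitAddCircle)) = e (0, v)) ∧
      ∀ τ, p τ ∈ range e →
        (∃ u, τ = (i, (α u : UnitAddCircle))) ∨ ∃ v, τ = (j, (β v : UnitAddCircle))

/-- The diagram is alternating: of two cyclically consecutive crossing parameters `a < b ≤ a + 1`
on one component, one is over and the other under. -/
def IsAlternating (p : Fin n × UnitAddCircle → F) (t : Fin n × UnitAddCircle → ℝ) : Prop :=
  ∀ (i : Fin n) (a b : ℝ), a < b → b ≤ a + 1 →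
    IsCrossing p (i, (a : UnitAddCircle)) → IsCrossing p (i, (b : UnitAddCircle)) →
    (∀ w : ℝ, a < w → w < b → ¬ IsCrossing p (i, (w : UnitAddCircle))) →
    (IsOver p t (i, (a : UnitAddCircle)) ↔ IsUnder p t (i, (b : UnitAddCircle)))

/-- The complement of the diagram in `F` is a disjoint union of open disks. -/
def IsCellular (p : Fin n × UnitAddCircle → F) : Prop :=
  ∀ x ∉ range p, Nonempty (connectedComponentIn (range p)ᶜ x ≃ₜ ℝ × ℝ)

end Diagrams

/-- `L` has an alternating diagram with complement a union of open disks on a Heegaard surface of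
genus `g`. -/
def HasAlternatingDiagram (L : Set Sphere3) (g : ℕ) : Prop :=
  ∃ (F V W : Set Sphere3) (h : F × ℝ → Sphere3) (n : ℕ)
    (p : Fin n × UnitAddCircle → F) (t : Fin n × UnitAddCircle → ℝ),
    IsHeegaardSurface g F V W ∧ IsProductNeighbourhood F V W h ∧
    L = {z : Sphere3 | ∃ τ, z = h (p τ, t τ)} ∧
    IsDiagram p t ∧ IsAlternating p t ∧ IsCellular p

/-- The alternating genus: the least genus of a Heegaard surface on which `L` has an alternating
diagram with complement a union of open disks (`⊤` if there is none). -/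
noncomputable def altGenus (L : Set Sphere3) : ℕ∞ :=
  ⨅ (g : ℕ) (_ : HasAlternatingDiagram L g), (g : ℕ∞)

/-- A handlebody is closed. -/
theorem IsHandlebody.isClosed {g : ℕ} {F W : Set Sphere3} (h : IsHandlebody g F W) :
    IsClosed W := by
  obtain ⟨φ, -⟩ := h
  have h1 : CompactSpace (handlebody g) :=
    isCompact_iff_compactSpace.1 (Pool.Agent.Lib.MP_55d555_gt.isCompact_handlebody g)
  have h2 : CompactSpace W := φ.symm.compactSpace
  exact (isCompact_iff_compactSpace.2 h2).isClosed

/-- The genus bound for the union of the first `2 (N + 1)` fibres. -/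
theorem bound {N g : ℕ} (h : HasAlternatingDiagram
    {x : Sphere3 | Pool.Agent.Lib.MP_55d555_gt.GG (N + 1) x = 0} g) : N ≤ 2 * g + 4 := by
  obtain ⟨F, V, W, h, n, p, t, hF, hh, hL, hd, ha, hc⟩ := h
  by_contra hN
  have hN' : 2 * g + 4 < N := by omega
  have clV := hF.left.isClosed
  have clW := hF.right.isClosed
  have clF : IsClosed F := by rw [← hF.inter]; exact clV.inter clW
  have i1 : CompactSpace F := isCompact_iff_compactSpace.1 clF.isCompact
  have i2 : ConnectedSpace F := isConnected_iff_connectedSpace.1 hF.connected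
  have i3 : LocallyConnectedSpace F := by
    obtain ⟨hch⟩ := hF.surface
    exact ChartedSpace.locallyConnectedSpace (EuclideanSpace ℝ (Fin 2)) F
  let c : Pool.Agent.Lib.MP_55d555_gt.Config Sphere3 F (Fin n × UnitAddCircle) :=
    { h := h
      hop := hh.embedding
      Wp := V
      Wm := W
      clp := clV
      clm := clW
      cover := fun z => by
        have : z ∈ V ∪ W := by rw [hF.union]; exact mem_univ z
        exact this
      inter := fun z hz1 hz2 => by
        have hz : z ∈ F := by rw [← hF.inter]; exact ⟨hz1, hz2⟩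
        exact ⟨⟨z, hz⟩, (hh.zero ⟨z, hz⟩).symm⟩
      pos := fun x s hs => by
        rcases hs.eq_or_lt with rfl | hs
        · rw [hh.zero x]
          exact (hF.inter.ge x.2).1
        · exact hh.pos x s hs
      neg := fun x s hs => by
        rcases hs.eq_or_lt with rfl | hs
        · rw [hh.zero x]
          exact (hF.inter.ge x.2).2
        · exact hh.neg x s hs
      p := p
      t := t
      hp := hd.proj_continuous
      ht := hd.height_continuous }
  have hlink : c.link = {x : Sphere3 | Pool.Agent.Lib.MP_55d555_gt.GG (N + 1) x = 0} := hL.symm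
  have hn : 0 < n := by
    rcases Nat.eq_zero_or_pos n with h0 | h0
    · exfalso
      let x0 : Sphere3 := ⟨Pool.Agent.Lib.MP_55d555_gt.fib 0 0,
        mem_sphere_zero_iff_norm.2 (Pool.Agent.Lib.MP_55d555_gt.fib_norm 0 0)⟩
      have hx0 : x0 ∈ {x : Sphere3 | Pool.Agent.Lib.MP_55d555_gt.GG (N + 1) x = 0} :=
        (Pool.Agent.Lib.MP_55d555_gt.mem_zero_iff (N + 1) x0).2 ⟨⟨0, by omega⟩, 0, rfl⟩
      rw [hL] at hx0
      obtain ⟨τ, -⟩ := hx0
      have := τ.1.2
      omega
    · exact h0
  have hAD : c.AltDiagram :=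
    { inj := hd.injective
      fin := hd.finite
      reg := fun i a h => hd.regular i a h
      cross := fun i j a b h1 h2 => hd.transverse i j a b h1 h2
      alt := fun i a b h1 h2 h3 h4 h5 => ha i a b h1 h2 h3 h4 fun w hw1 hw2 => h5 w ⟨hw1, hw2⟩ }
  obtain ⟨φ₁, -⟩ := hF.left
  obtain ⟨φ₂, -⟩ := hF.right
  obtain ⟨a, ha0, Φ, hΦ1, hΦ2⟩ := c.core hn hAD hc φ₁ φ₂
    (G := Pool.Agent.Lib.MP_55d555_gt.GG (N + 1))
    (Pool.Agent.Lib.MP_55d555_gt.continuous_GG (N + 1))
    (fun x => by rw [hlink]; exact Iff.rfl)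
    (fun x hx U hU hxU => by
      rw [hlink] at hx ⊢
      exact Pool.Agent.Lib.MP_55d555_gt.no_local_sqrt (N + 1) x hx U hU hxU)
    hN' (θ := fun i => Pool.Agent.Lib.MP_55d555_gt.Th (Fin.castSucc i))
    (fun i => Pool.Agent.Lib.MP_55d555_gt.Th_continuousOn _)
    (fun i z _ => Pool.Agent.Lib.MP_55d555_gt.Th_neg _ z)
  exact ha0 (Pool.Agent.Lib.MP_55d555_gt.sphere_indep a hΦ1 hΦ2)

/-- The union of the first `2 M` fibres is a smooth link. -/
theorem isSmoothLink_fibres {M : ℕ} (hM : 0 < M) :
    IsSmoothLink {x : Sphere3 | Pool.Agent.Lib.MP_55d555_gt.GG M x = 0} := by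
  refine ⟨2 * M, fun k => Pool.Agent.Lib.MP_55d555_gt.fib k, by omega,
    fun i => Pool.Agent.Lib.MP_55d555_gt.fib_contDiff i,
    fun i t => Pool.Agent.Lib.MP_55d555_gt.fib_deriv_ne i t,
    fun i t => Pool.Agent.Lib.MP_55d555_gt.fib_norm i t,
    fun i t => Pool.Agent.Lib.MP_55d555_gt.fib_periodic i t, ?_, ?_⟩
  · intro i j s t h
    obtain ⟨h1, h2⟩ := Pool.Agent.Lib.MP_55d555_gt.fib_inj h
    exact ⟨Fin.ext h1, h2⟩
  · ext x
    exact Pool.Agent.Lib.MP_55d555_gt.mem_zero_iff M x

/-- **The alternating genus is unbounded**: for every `n` there is a smooth link in `S³` of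
alternating genus at least `n`. -/
theorem result : ∀ n : ℕ, ∃ L : Set Sphere3, IsSmoothLink L ∧ (n : ℕ∞) ≤ altGenus L := by
  intro n
  refine ⟨{x : Sphere3 | Pool.Agent.Lib.MP_55d555_gt.GG (2 * n + 4 + 1) x = 0},
    isSmoothLink_fibres (by omega), ?_⟩
  refine le_iInf₂ fun g hg => ?_
  have := bound hg
  exact_mod_cast (by omega : n ≤ g)

end Pool.Agent.Results.MP_55d555_gt.Unbounded
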